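import Mathlib
import Pool.Agent.H90.TS.As6

set_option autoImplicit false

/-!
# Vectors of norm 14 in the Thompson - Smith lattice
-/

namespace Pool.Agent.Results.MP_660bdc_al.NormFourteen

open Matrix

/-- The set of the vectors of norm `m` of the lattice `ℤ ^ 248` with Gram matrix `B`. -/
def vectors (B : Matrix (Fin 248) (Fin 248) ℤ) (m : ℤ) : Set (Fin 248 → ℤ) :=
  {x | x ⬝ᵥ B *ᵥ x = m}

/-- `B` is the Gram matrix of a positive definite even unimodular lattice of rank `248`, and the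
group `G`, of the order of Thompson's group, acts on it through `ρ` by isometries, irreducibly over
the complex numbers. -/
structure IsThompsonLattice {G : Type} [Group G] [Fintype G] (B : Matrix (Fin 248) (Fin 248) ℤ)
    (ρ : G →* Matrix (Fin 248) (Fin 248) ℤ) : Prop where
  card : Fintype.card G = 2 ^ 15 * 3 ^ 10 * 5 ^ 3 * 7 ^ 2 * 13 * 19 * 31
  posDef : (B.map (Int.cast : ℤ → ℝ)).PosDef
  even : ∀ x : Fin 248 → ℤ, Even (x ⬝ᵥ B *ᵥ x)
  unimodular : B.det = 1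
  isometry : ∀ g, (ρ g)ᵀ * B * ρ g = B
  irreducible : ∀ W : Submodule ℂ (Fin 248 → ℂ),
    (∀ g, ∀ w ∈ W, (ρ g).map (Int.cast : ℤ → ℂ) *ᵥ w ∈ W) → W = ⊥ ∨ W = ⊤

/-- Facts about Thompson's group `Th` and its character of degree `248` from the ATLAS of finite
groups: the elements of order `5` (one class, 5A) have trace `-2`, those of order `19` trace `1`;
there are elements of order `3` with trace `-4` (the class 3C); and the normalizer `31 : 15` of a
Sylow `31`-subgroup contains, up to conjugacy, every element `b` of order `5`, acting by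
`a ↦ a ^ 2`, and every element of class 3C, acting by `a ↦ a ^ 5`. -/
structure ThompsonFacts {G : Type} [Group G] (ρ : G →* Matrix (Fin 248) (Fin 248) ℤ) : Prop where
  trace_five : ∀ b : G, orderOf b = 5 → (ρ b).trace = -2
  trace_nineteen : ∀ g : G, orderOf g = 19 → (ρ g).trace = 1
  exists_three : ∃ c : G, orderOf c = 3 ∧ (ρ c).trace = -4
  normalize_five : ∀ b : G, orderOf b = 5 → ∃ a : G, orderOf a = 31 ∧ b * a * b⁻¹ = a ^ 2
  normalize_three : ∀ c : G, orderOf c = 3 → (ρ c).trace = -4 →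
    ∃ a : G, orderOf a = 31 ∧ c * a * c⁻¹ = a ^ 5

theorem result {G : Type} [Group G] [Fintype G] (B : Matrix (Fin 248) (Fin 248) ℤ)
    (ρ : G →* Matrix (Fin 248) (Fin 248) ℤ) (h : IsThompsonLattice B ρ) :
    (∀ m : ℤ, ∀ x ∈ vectors B (2 * m), ∀ g : G, ρ g *ᵥ x = x →
      (¬ 31 ∣ m → ¬ 31 ∣ orderOf g) ∧
      (ThompsonFacts ρ → (¬ 5 ∣ m → ¬ 5 ∣ orderOf g) ∧
        ((∃ j : ℤ, ¬ 19 ∣ j ∧ 19 ∣ m - j ^ 2) → ¬ 19 ∣ orderOf g) ∧
        (¬ 3 ∣ m → orderOf g = 3 → (ρ g).trace ≠ -4))) ∧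
    (vectors B 14).Finite ∧ 2 * 31 ∣ (vectors B 14).ncard ∧
    (ThompsonFacts ρ → 2 * 3 * 5 ^ 3 * 19 * 31 ∣ (vectors B 14).ncard) := by
  obtain ⟨hs, hpos⟩ := Pool.Agent.H90.TS.ip_pos h.posDef
  have habs := Pool.Agent.H90.TS.schur_of_irr ρ (by norm_num) h.irreducible
  have hfin : (vectors B 14).Finite :=
    Pool.Agent.H90.TS.finite_norm hs hpos h.unimodular 14
  have key : ∀ m : ℤ, ∀ x ∈ vectors B (2 * m), ∀ g : G, ρ g *ᵥ x = x →
      (¬ 31 ∣ m → ¬ 31 ∣ orderOf g) ∧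
      (ThompsonFacts ρ → (¬ 5 ∣ m → ¬ 5 ∣ orderOf g) ∧
        ((∃ j : ℤ, ¬ 19 ∣ j ∧ 19 ∣ m - j ^ 2) → ¬ 19 ∣ orderOf g) ∧
        (¬ 3 ∣ m → orderOf g = 3 → (ρ g).trace ≠ -4)) := by
    intro m x hx g hg
    refine ⟨fun hm => Pool.Agent.H90.TS.main31 h.card hs h.isometry habs hm hx hg,
      fun hT => ⟨fun hm => ?_, ?_, fun hm hg3 htr => ?_⟩⟩
    · exact Pool.Agent.H90.TS.main5 h.card hs hpos h.isometry habs
        (fun b hb => ⟨hT.trace_five b hb, hT.normalize_five b hb⟩) hm hx hg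
    · rintro ⟨j, hj, hmj⟩
      exact Pool.Agent.H90.TS.main19 h.card hs hpos h.unimodular h.even h.isometry habs
        hT.trace_nineteen hj hmj hx hg
    · exact Pool.Agent.H90.TS.main3 h.card hs hpos h.unimodular h.isometry habs hg3 htr
        (hT.normalize_three g hg3 htr) hm hx hg
  have key14 : ∀ x ∈ vectors B 14, ∀ g : G, ρ g *ᵥ x = x →
      (¬ 31 ∣ orderOf g) ∧
      (ThompsonFacts ρ → (¬ 5 ∣ orderOf g) ∧ (¬ 19 ∣ orderOf g) ∧
        (orderOf g = 3 → (ρ g).trace ≠ -4)) := by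
    intro x hx g hg
    have h1 := key 7 x (by
      show x ⬝ᵥ B *ᵥ x = 2 * 7
      rw [show (2 : ℤ) * 7 = 14 by norm_num]; exact hx) g hg
    refine ⟨h1.1 (by norm_num), fun hT => ?_⟩
    obtain ⟨a1, a2, a3⟩ := h1.2 hT
    exact ⟨a1 (by norm_num), a2 ⟨8, by norm_num, by norm_num⟩, a3 (by norm_num)⟩
  have d2 : 2 ∣ (vectors B 14).ncard :=
    Pool.Agent.H90.TS.two_dvd_ncard (by norm_num) hfin
  have d31 : 31 ^ 1 ∣ (vectors B 14).ncard :=
    Pool.Agent.H90.TS.pow_dvd_ncard h.isometry hfin (by norm_num) (by rw [h.card]; norm_num)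
      fun x hx g hg => (key14 x hx g hg).1
  refine ⟨key, hfin, by omega, fun hT => ?_⟩
  have d19 : 19 ^ 1 ∣ (vectors B 14).ncard :=
    Pool.Agent.H90.TS.pow_dvd_ncard h.isometry hfin (by norm_num) (by rw [h.card]; norm_num)
      fun x hx g hg => ((key14 x hx g hg).2 hT).2.1
  have d5 : 5 ^ 3 ∣ (vectors B 14).ncard :=
    Pool.Agent.H90.TS.pow_dvd_ncard h.isometry hfin (by norm_num) (by rw [h.card]; norm_num)
      fun x hx g hg => ((key14 x hx g hg).2 hT).1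
  have d3 : 3 ∣ (vectors B 14).ncard := by
    obtain ⟨c, hc, htr⟩ := hT.exists_three
    exact Pool.Agent.H90.TS.dvd_ncard h.isometry hfin (by norm_num) hc
      fun x hx hx14 => ((key14 x hx14 c hx).2 hT).2.2 hc htr
  norm_num at d31 d19 d5 ⊢
  omega

end Pool.Agent.Results.MP_660bdc_al.NormFourteen
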